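import Pool.Agent.Q170.PK.Fam
import Pool.Agent.Q170.PK.Count
import Pool.Agent.TH971.RF.B6

/-!
# MP_28d749_ag: Pink's conjecture for one hundred percent of the members of families of subvarieties
of powers of elliptic schemes

**The abelian schemes.** Let `K` be a field of algebraic numbers and `t = (t_1, …, t_r)` parameters.
Let `B_t ⊆ P^N` be a family of projective algebraic sets, defined by forms `G k` with coefficients in
`K[t]` (`OnB`), and let `A₄`, `A₆` be forms of degrees `4 e` and `6 e` with coefficients in `K[t]`. They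
give the elliptic schemes `E_t → B_t°` with the fibres `y'² = x³ + A₄(t; y) x + A₆(t; y)` over the
points `y` of the open subset `4 A₄³ + 27 A₆² ≠ 0` of `B_t`. (All elliptic schemes over quasi-projective
varieties over number fields are of this form after shrinking the base.) Let `𝒜_t` be the `q`-th
fibre power of `E_t`, for any `q`.

**The subvarieties.** For `l = 1, …, q` let `F_{l,0}, …, F_{l,R}` be forms of degrees
`d_l, d_l + 2 e, …, d_l + 2 e R` with coefficients in `K[t]`. The points `(y, P)` of `E_t` with
`∑_h F_{l,h}(t; y) x(P)^(R - h) = 0` (which means `F_{l,0}(t; y) = 0` at the origin `P = 0`) form a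
multisection of `E_t`. The fibre product of these `q` multisections is `X_t ⊆ 𝒜_t` (`OnX`).

**The degenerate members.** Let `D, E ∈ ℤ[t]`. Along the hypersurface `D = 0` the multisections tend to
the origin, with different slopes: `F_{l,h} = D^(s_{l,h}) U_{l,h}` with `s_{l,0} = f_l`, `s_{l,R} = 0`
and `f_l (R - h) ≤ R s_{l,h}` (the Newton polygon of the equation with respect to `D` consists of one
segment of slope `f_l / R`), where `R` is a prime number, `f_l > R / 2`, and the `f_l` are distinct
modulo `R`. For all complex `t` with `D(t) = 0`, `E(t) ≠ 0` we suppose that the base and the divisors are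
in general position (`InGeneralPosition`): no point of `B_t` is on `m + 1` of the `q` divisors
`U_{l,0} U_{l,R} = 0` and `m + 1` given hyperplanes with integral coefficients. (If the intersection of
`B_t` with any `j` of the divisors has dimension `m - j`, or is empty for `j > m`, this holds for
`m + 1` general hyperplanes, and finitely many `t`.) In particular `B_t` has dimension at most `m`.
Nothing is assumed for the other `t`.

**Theorem.** 1. There is a number `Q` such that for all `t ∈ ℤ^r` for which `D(t)` has a prime factor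
`p > Q` which does not divide `E(t)` and whose multiplicity is not divisible by `R` (for instance, a
simple prime factor) the following is true (`Pink`): if the point `(y, P)` of `X_t` over the complex
numbers is in an algebraic subgroup of codimension at least `ρ` of its fibre, then at most `m - ρ` of
the ratios `y_j / y_{j0}` are algebraically independent. In particular

* `X_t` does not meet `𝒜_t^[>m]`, the union of all algebraic subgroups of codimension `> m` of all the
  fibres, as in Pink's conjecture, and
* for every `ρ` the intersection `X_t ∩ 𝒜_t^[≥ρ]` has dimension at most `m - ρ`, or is empty, as far as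
  `X_t` is finite over `B_t`. (The case `ρ = 1` says that no component of dimension `m` is in a strict
  group subscheme.)

2. If moreover the equations of the multisections are not trivial at the points of `B_t`, for
`D(t) = 0`, `E(t) ≠ 0` (this holds in general for `m ≤ R`), then `X_t → B_t` has finite fibres for all
these `t ∈ ℤ^r`. The fibres at the points of `B_t°` are not empty, for all `t`. So `X_t` has dimension
`m` if `B_t°` has dimension `m`.

3. If `D` is not constant and `D`, `E` have no common factor then for every `ε > 0` there are at most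
`C H^(r - 1 + deg D / R + ε)` of the `t ∈ ℤ^r` with `|t_j| ≤ H` for which this does not hold. So if
`R > deg D` (for example, for linear `D`) Pink's conjecture is proved for one hundred percent of
the members of the family, with a power saving.

The algebraic subgroups of the fibres `E_y^q` are given up to torsion by relations
`∑ c_l (P_l) = 0` with endomorphisms `c_l` of `E_y` as coefficients, also for the fibres with complex
multiplication (`InSubgroup`), as in the starting file `RandomMultisections`. There the conjecture is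
proved for a positive proportion of all systems of forms `F_{l,h}` with integral coefficients, over a
fixed elliptic scheme; here for almost all members of arbitrary families over arbitrary families of
elliptic schemes with one degenerate hypersurface.

**Proof.** At a place above `p` the points `P_l` with `U_{l,0} U_{l,R}` a unit, in suitable coordinates
of `y`, are near to the origin of the fibre, and `x(P_l)` has the value `p^(- k f_l / R)`, where `k` is
the multiplicity of `p` in `D(t)`. As the `k f_l` are distinct modulo `R`, there is no relation between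
these points (`Pool.Agent.TH971.RF.rel_placeE` of the starting files). The places are controlled by
Nullstellensatz certificates in the variables `t` and `y` (`goodQ`). For 3. one counts the values
of `D` on lines of the form `a b^R`, where the prime factors of `a` divide a fixed number of moderate
size.
-/

set_option autoImplicit false

namespace Pool.Agent.Results.MP_28d749_ag.AlmostAllMembers

open MvPolynomial
open Pool.Agent.Q170.ZP.Multi (evalAt OnB)

/-- The curve `y² = x³ + a x + b` over the complex numbers. -/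
abbrev curve (a b : ℂ) : WeierstrassCurve.Affine ℂ := ⟨0, 0, 0, a, b⟩

/-- The `x`-coordinate of a point of the curve (`0` for the origin). -/
def xCoord {a b : ℂ} : (curve a b).Point → ℂ
  | .zero => 0
  | .some x _ _ => x

/-- The map `φ` of the points of the curve `y² = x³ + a x + b` to itself is given on the
`x`-coordinates by a rational function `u / w` with `u(x) / w(x) ~ x / c²` for `x → ∞`. -/
def ActsByRational {a b : ℂ} (c : ℂ) (φ : (curve a b).Point → (curve a b).Point) : Prop :=
  ∃ u w : Polynomial ℂ, w ≠ 0 ∧ u.natDegree = w.natDegree + 1 ∧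
    w.leadingCoeff = c ^ 2 * u.leadingCoeff ∧
    ∀ P : (curve a b).Point, P ≠ 0 → w.eval (xCoord P) ≠ 0 →
      φ P ≠ 0 ∧ xCoord (φ P) * w.eval (xCoord P) = u.eval (xCoord P)

/-- A ring of endomorphisms of the curve `y² = x³ + a x + b`: a ring `O` of complex numbers which
acts on the group of points. For an endomorphism which is multiplication by `λ` on the tangent space
at the origin the number `λ` is an integer or an imaginary quadratic integer, in particular it
satisfies an equation `λ² - T λ + N = 0` with integers `T, N`, and if it is not an integer, the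
`x`-coordinate of the image of a point is a rational function `u / w` of the `x`-coordinate of the
point, with `u(x) / w(x) ~ x / λ²` for `x → ∞`. (The integers in `O` act by multiplication, as `act`
is a homomorphism of rings.) -/
structure EndRing (a b : ℂ) where
  /-- the ring -/
  O : Subring ℂ
  /-- its action on the points -/
  act : O →+* AddMonoid.End (curve a b).Point
  quad : ∀ c : O, ∃ T N : ℤ, (c : ℂ) ^ 2 - T * c + N = 0
  rat : ∀ c : O, (∀ n : ℤ, (c : ℂ) ≠ n) → ActsByRational c (act c)

/-- The linear combination `∑ c_l (P_l)` of points with endomorphisms `c_l` as coefficients. -/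
noncomputable def EndRing.comb {a b : ℂ} (E : EndRing a b) {q : ℕ} (c : Fin q → E.O)
    (P : Fin q → (curve a b).Point) : (curve a b).Point :=
  ∑ l, E.act (c l) (P l)

/-- The coefficients `c_1, …, c_q` are a relation between the points `P_1, …, P_q` up to torsion:
the point `∑ c_l (P_l)` is a torsion point. -/
def EndRing.Relation {a b : ℂ} (E : EndRing a b) {q : ℕ} (c : Fin q → E.O)
    (P : Fin q → (curve a b).Point) : Prop :=
  ∃ t : ℕ, 0 < t ∧ t • E.comb c P = 0

/-- The point `(P_1, …, P_q)` of the `q`-th power of the curve is in an algebraic subgroup of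
codimension at least `ρ`: the module of the relations between the `P_l` over some ring of
endomorphisms of the curve has rank at least `ρ`, it has `ρ` linearly independent elements. -/
def InSubgroup {a b : ℂ} {q : ℕ} (P : Fin q → (curve a b).Point) (ρ : ℕ) : Prop :=
  ∃ (E : EndRing a b) (c : Fin ρ → Fin q → E.O),
    LinearIndependent ℂ (fun i l => (c i l : ℂ)) ∧ ∀ i, E.Relation (c i) P

/-- The point `P` of the fibre is on the multisection with the equation `∑_h φ_h x^(R - h) = 0`. -/
def OnMultisection {R : ℕ} (φ : Fin (R + 1) → ℂ) {a b : ℂ} (P : (curve a b).Point) : Prop :=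
  (P = 0 ∧ φ 0 = 0) ∨ (P ≠ 0 ∧ ∑ h : Fin (R + 1), φ h * xCoord P ^ (R - (h : ℕ)) = 0)

section family

variable {K : Subfield ℂ} {r N q m R : ℕ} {κ : Type}

/-- The point `(y; P_1, …, P_q)` of the `q`-th fibre power is a point of `X_t`. -/
def OnX (t : Fin r → ℂ)
    (F : Fin q → Fin (R + 1) → MvPolynomial (Fin (N + 1)) (MvPolynomial (Fin r) K))
    (y : Fin (N + 1) → ℂ) {a b : ℂ} (P : Fin q → (curve a b).Point) : Prop :=
  ∀ l, OnMultisection (fun h => eval₂ (evalAt K t) y (F l h)) (P l)

/-- No point of `B_t` lies on `m + 1` of the divisors `U_{l,0} U_{l,R} = 0` and the hyperplanes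
`∑_j L_{b,j} y_j = 0`. -/
def InGeneralPosition (t : Fin r → ℂ)
    (G : κ → MvPolynomial (Fin (N + 1)) (MvPolynomial (Fin r) K))
    (U : Fin q → Fin (R + 1) → MvPolynomial (Fin (N + 1)) (MvPolynomial (Fin r) K))
    (L : Fin (m + 1) → Fin (N + 1) → ℤ) : Prop :=
  ∀ (I : Finset (Fin q)) (J : Finset (Fin (m + 1))), I.card + J.card = m + 1 → ∀ y, OnB t G y →
    (∃ l ∈ I, eval₂ (evalAt K t) y (U l 0) * eval₂ (evalAt K t) y (U l (Fin.last R)) ≠ 0) ∨
      ∃ b ∈ J, ∑ j, (L b j : ℂ) * y j ≠ 0

/-- If the point `(y, P)` of `X_t` is in an algebraic subgroup of codimension at least `ρ` of its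
fibre, then at most `m - ρ` of the ratios of the coordinates of `y` are algebraically independent. -/
def Pink (m : ℕ) (t : Fin r → ℂ) (G : κ → MvPolynomial (Fin (N + 1)) (MvPolynomial (Fin r) K))
    (A₄ A₆ : MvPolynomial (Fin (N + 1)) (MvPolynomial (Fin r) K))
    (F : Fin q → Fin (R + 1) → MvPolynomial (Fin (N + 1)) (MvPolynomial (Fin r) K)) : Prop :=
  ∀ y, OnB t G y →
    ∀ P : Fin q → (curve (eval₂ (evalAt K t) y A₄) (eval₂ (evalAt K t) y A₆)).Point, OnX t F y P →
    ∀ ρ : ℕ, InSubgroup P ρ → ∀ (j0 : Fin (N + 1)) (T : Finset (Fin (N + 1))),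
      AlgebraicIndependent ℚ (fun j : T => y j / y j0) → T.card + ρ ≤ m

/-- The fibres of `X_t → B_t` are finite. -/
def FiniteFibres (t : Fin r → ℂ) (G : κ → MvPolynomial (Fin (N + 1)) (MvPolynomial (Fin r) K))
    (A₄ A₆ : MvPolynomial (Fin (N + 1)) (MvPolynomial (Fin r) K))
    (F : Fin q → Fin (R + 1) → MvPolynomial (Fin (N + 1)) (MvPolynomial (Fin r) K)) : Prop :=
  ∀ y, OnB t G y → {P : Fin q → (curve (eval₂ (evalAt K t) y A₄)
    (eval₂ (evalAt K t) y A₆)).Point | OnX t F y P}.Finite

/-- The fibres of `X_t → B_t` at the points with smooth fibre are not empty. -/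
def NonemptyFibres (t : Fin r → ℂ) (G : κ → MvPolynomial (Fin (N + 1)) (MvPolynomial (Fin r) K))
    (A₄ A₆ : MvPolynomial (Fin (N + 1)) (MvPolynomial (Fin r) K))
    (F : Fin q → Fin (R + 1) → MvPolynomial (Fin (N + 1)) (MvPolynomial (Fin r) K)) : Prop :=
  ∀ y, OnB t G y → 4 * eval₂ (evalAt K t) y A₄ ^ 3 + 27 * eval₂ (evalAt K t) y A₆ ^ 2 ≠ 0 →
    ∃ P : Fin q → (curve (eval₂ (evalAt K t) y A₄) (eval₂ (evalAt K t) y A₆)).Point, OnX t F y P

/-- The equations of the multisections are not trivial at the points of the degenerate members. -/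
def NontrivialEquations (D E : MvPolynomial (Fin r) ℤ)
    (G : κ → MvPolynomial (Fin (N + 1)) (MvPolynomial (Fin r) K))
    (U : Fin q → Fin (R + 1) → MvPolynomial (Fin (N + 1)) (MvPolynomial (Fin r) K)) : Prop :=
  ∀ t : Fin r → ℂ, aeval t D = 0 → aeval t E ≠ 0 → ∀ y, OnB t G y → ∀ l, ∃ h,
    eval₂ (evalAt K t) y (U l h) ≠ 0

end family

theorem xCoord_eq {a b : ℂ} (P : (curve a b).Point) :
    xCoord P = Pool.Agent.W466.EP.xx (A := a) (B := b) P := by
  rcases P with _ | ⟨x, y, h⟩
  · rfl
  · rfl

/-- the ring of endomorphisms as in the helper files -/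
def toE {a b : ℂ} (E : EndRing a b) : Pool.Agent.TH971.RF.EndRing a b where
  O := E.O
  act := E.act
  quad := E.quad
  rat := by
    intro c hc
    obtain ⟨u, w, h1, h2, h3, h4⟩ := E.rat c hc
    refine ⟨u, w, h1, h2, h3, fun P hP hw => ?_⟩
    have e1 : xCoord (a := a) (b := b) P = Pool.Agent.W466.EP.xx (A := a) (B := b) P := xCoord_eq P
    have hw' : w.eval (xCoord (a := a) (b := b) P) ≠ 0 := by rw [e1]; exact hw
    have h5 := h4 P hP hw'
    have e2 : xCoord (a := a) (b := b) (E.act c P) =
      Pool.Agent.W466.EP.xx (A := a) (B := b) (E.act c P) := xCoord_eq _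
    rw [e1, e2] at h5
    exact h5

/-- the module of the relations -/
def relMod {a b : ℂ} (E : EndRing a b) {q : ℕ} (P : Fin q → (curve a b).Point) :
    Submodule E.O (Fin q → E.O) where
  carrier := {c | E.Relation c P}
  zero_mem' := ⟨1, one_pos, by simp [EndRing.comb]⟩
  add_mem' := by
    rintro c c' ⟨t, ht, h⟩ ⟨t', ht', h'⟩
    refine ⟨t * t', Nat.mul_pos ht ht', ?_⟩
    have e1 : E.comb (c + c') P = E.comb c P + E.comb c' P := by
      unfold EndRing.comb
      rw [← Finset.sum_add_distrib]
      refine Finset.sum_congr rfl fun l _ => ?_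
      rw [Pi.add_apply, map_add]
      rfl
    rw [e1, nsmul_add, mul_nsmul, h, mul_comm t t', mul_nsmul, h', nsmul_zero, nsmul_zero, add_zero]
  smul_mem' := by
    rintro r c ⟨t, ht, h⟩
    refine ⟨t, ht, ?_⟩
    have e1 : E.comb (r • c) P = E.act r (E.comb c P) := by
      simp [EndRing.comb, map_sum]
    rw [e1, ← map_nsmul, h, map_zero]

theorem le_finrank {a b : ℂ} (E : EndRing a b) {q ρ : ℕ} (P : Fin q → (curve a b).Point)
    (c : Fin ρ → Fin q → E.O) (hc : LinearIndependent ℂ (fun i l => (c i l : ℂ)))
    (h : ∀ i, E.Relation (c i) P) : ρ ≤ Module.finrank E.O (relMod E P) := by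
  have h1 : LinearIndependent E.O (fun i => (⟨c i, h i⟩ : relMod E P)) := by
    rw [Fintype.linearIndependent_iff] at hc ⊢
    intro g hg i
    have h2 : ∑ i, (g i : ℂ) • (fun l => (c i l : ℂ)) = 0 := by
      funext l
      have h3 := congrArg (fun v : relMod E P => (((v : Fin q → E.O) l : E.O) : ℂ)) hg
      simpa [Finset.sum_apply] using h3
    exact_mod_cast hc _ h2 i
  have h2 := h1.cardinal_le_rank
  have h3 : Module.rank E.O (relMod E P) < Cardinal.aleph0 := by
    refine (Submodule.rank_le _).trans_lt ?_
    rw [rank_fun']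
    exact Cardinal.natCast_lt_aleph0
  have h4 := Cardinal.toNat_le_toNat h2 h3
  simpa [Module.finrank] using h4

/-- a curve has finitely many points on a multisection, if its equation is not trivial -/
theorem finite_on {R : ℕ} (φ : Fin (R + 1) → ℂ) (a b : ℂ) (h : ∃ h, φ h ≠ 0) :
    {P : (curve a b).Point | OnMultisection φ P}.Finite := by
  classical
  let f : Polynomial ℂ := ∑ h : Fin (R + 1), Polynomial.C (φ h) * Polynomial.X ^ (R - (h : ℕ))
  have hf : f ≠ 0 := by
    obtain ⟨h, hh⟩ := h
    intro h0
    apply hh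
    have h1 : f.coeff (R - (h : ℕ)) = φ h := by
      change (∑ h : Fin (R + 1), Polynomial.C (φ h) * Polynomial.X ^ (R - (h : ℕ))).coeff
        (R - (h : ℕ)) = _
      rw [Polynomial.finsetSum_coeff, Finset.sum_eq_single h]
      · rw [Polynomial.coeff_C_mul_X_pow, if_pos rfl]
      · intro h' _ hne
        rw [Polynomial.coeff_C_mul_X_pow, if_neg]
        intro h4
        apply hne
        apply Fin.ext
        have h5 := h.2
        have h6 := h'.2
        omega
      · intro h4
        exact absurd (Finset.mem_univ _) h4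
    rw [← h1, h0, Polynomial.coeff_zero]
  have hev : ∀ x : ℂ, f.eval x = ∑ h : Fin (R + 1), φ h * x ^ (R - (h : ℕ)) := by
    intro x
    change (∑ h : Fin (R + 1), Polynomial.C (φ h) * Polynomial.X ^ (R - (h : ℕ))).eval x = _
    rw [Polynomial.eval_finsetSum]
    refine Finset.sum_congr rfl fun h _ => ?_
    rw [Polynomial.eval_mul, Polynomial.eval_C, Polynomial.eval_pow, Polynomial.eval_X]
  -- coordinates
  let co : (curve a b).Point → Option (ℂ × ℂ) := fun P => match P with
    | .zero => none
    | .some x y _ => some (x, y)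
  have hco : Function.Injective co := by
    rintro (_ | ⟨x, y, h⟩) (_ | ⟨x', y', h'⟩) hP
    · rfl
    · exact absurd hP (by simp [co])
    · exact absurd hP (by simp [co])
    · have h1 : (x, y) = (x', y') := Option.some.inj hP
      obtain ⟨rfl, rfl⟩ := Prod.mk.inj h1
      rfl
  refine Set.Finite.of_finite_image (f := co) ?_ hco.injOn
  let S : Finset (Option (ℂ × ℂ)) := insert none ((f.roots.toFinset.biUnion fun x =>
    ((Polynomial.X ^ 2 - Polynomial.C (x ^ 3 + a * x + b)).roots.toFinset.image
      fun y => (x, y))).image some)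
  refine S.finite_toSet.subset ?_
  rintro _ ⟨P, hP, rfl⟩
  rcases P with _ | ⟨x, z, hn⟩
  · exact Finset.mem_coe.2 (Finset.mem_insert_self _ _)
  · rcases hP with ⟨h0, -⟩ | ⟨-, h1⟩
    · exact absurd h0 (WeierstrassCurve.Affine.Point.some_ne_zero hn)
    · refine Finset.mem_coe.2 (Finset.mem_insert_of_mem (Finset.mem_image_of_mem _ ?_))
      refine Finset.mem_biUnion.2 ⟨x, ?_, Finset.mem_image_of_mem _ ?_⟩
      · rw [Multiset.mem_toFinset, Polynomial.mem_roots hf, Polynomial.IsRoot, hev]
        exact h1
      · have h2 : z ^ 2 = x ^ 3 + a * x + b := by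
          have h3 := (WeierstrassCurve.Affine.equation_iff _ _).1 hn.1
          linear_combination h3
        have h3 : (Polynomial.X ^ 2 - Polynomial.C (x ^ 3 + a * x + b) : Polynomial ℂ) ≠ 0 :=
          Polynomial.X_pow_sub_C_ne_zero two_pos _
        rw [Multiset.mem_toFinset, Polynomial.mem_roots h3, Polynomial.IsRoot]
        simp [h2]

/-- the equation of a multisection in terms of the helper files -/
theorem onMs_iff {R : ℕ} (φ : Fin (R + 1) → ℂ) {a b : ℂ} (P : (curve a b).Point) :
    OnMultisection φ P ↔ Pool.Agent.Q170.PK.OnMs φ (a := a) (b := b) P := by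
  unfold OnMultisection Pool.Agent.Q170.PK.OnMs
  rw [xCoord_eq]
  exact Iff.rfl

/-- Pink's conjecture for the members of families of subvarieties of powers of elliptic schemes which
degenerate along a hypersurface. -/
theorem result (K : Subfield ℂ) (hK : ∀ x ∈ K, IsAlgebraic ℚ x) (κ : Type) [Finite κ]
    (r N q m R e : ℕ) (hR : R.Prime)
    (G : κ → MvPolynomial (Fin (N + 1)) (MvPolynomial (Fin r) K))
    (hG : ∀ k, ∃ w, (G k).IsHomogeneous w)
    (A₄ A₆ : MvPolynomial (Fin (N + 1)) (MvPolynomial (Fin r) K))
    (h₄ : A₄.IsHomogeneous (4 * e)) (h₆ : A₆.IsHomogeneous (6 * e)) (d : Fin q → ℕ)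
    (F U : Fin q → Fin (R + 1) → MvPolynomial (Fin (N + 1)) (MvPolynomial (Fin r) K))
    (hU : ∀ l (h : Fin (R + 1)), (U l h).IsHomogeneous (d l + 2 * e * (h : ℕ)))
    (D E : MvPolynomial (Fin r) ℤ) (f : Fin q → ℕ) (s : Fin q → Fin (R + 1) → ℕ)
    (hF : ∀ l h, F l h = C (MvPolynomial.map (Int.castRingHom K) D) ^ s l h * U l h)
    (hs0 : ∀ l, s l 0 = f l) (hsR : ∀ l, s l (Fin.last R) = 0)
    (hs : ∀ l (h : Fin (R + 1)), f l * (R - (h : ℕ)) ≤ R * s l h) (hf : ∀ l, R < 2 * f l)
    (hdis : ∀ l l', l ≠ l' → ¬ f l ≡ f l' [MOD R]) (L : Fin (m + 1) → Fin (N + 1) → ℤ)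
    (hpos : ∀ t : Fin r → ℂ, aeval t D = 0 → aeval t E ≠ 0 → InGeneralPosition t G U L) :
    (∃ Q : ℕ, ∀ t : Fin r → ℤ, (∃ p : ℕ, p.Prime ∧ Q < p ∧ (p : ℤ) ∣ eval t D ∧
      ¬ (p : ℤ) ∣ eval t E ∧ ¬ R ∣ padicValInt p (eval t D)) →
      Pink m (fun j => (t j : ℂ)) G A₄ A₆ F ∧
      (NontrivialEquations D E G U → FiniteFibres (fun j => (t j : ℂ)) G A₄ A₆ F)) ∧
    (∀ t : Fin r → ℂ, NonemptyFibres t G A₄ A₆ F) ∧
    (0 < D.totalDegree → IsRelPrime D E → ∀ ε : ℝ, 0 < ε → ∃ C : ℝ, 0 < C ∧ ∀ H : ℕ, 1 ≤ H →
      (({t : Fin r → ℤ | (∀ j, |t j| ≤ H) ∧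
        ¬ (Pink m (fun j => (t j : ℂ)) G A₄ A₆ F ∧
          (NontrivialEquations D E G U →
            FiniteFibres (fun j => (t j : ℂ)) G A₄ A₆ F))}.ncard : ℕ) : ℝ) ≤
        C * (H : ℝ) ^ ((r : ℝ) - 1 + (D.totalDegree : ℝ) / R + ε)) := by
  classical
  have hmain : ∃ Q : ℕ, ∀ t : Fin r → ℤ, (∃ p : ℕ, p.Prime ∧ Q < p ∧ (p : ℤ) ∣ eval t D ∧
      ¬ (p : ℤ) ∣ eval t E ∧ ¬ R ∣ padicValInt p (eval t D)) →
      Pink m (fun j => (t j : ℂ)) G A₄ A₆ F ∧
      (NontrivialEquations D E G U → FiniteFibres (fun j => (t j : ℂ)) G A₄ A₆ F) := by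
    obtain ⟨Q1, hQ1⟩ := Pool.Agent.Q170.PK.famE K hK κ r N q m R e hR G hG A₄ A₆ h₄ h₆ d F U hU D E
      f s hF hs0 hsR hs hf hdis L (by
        intro t hD hE I hI y hy
        let I1 : Finset (Fin q) := Finset.univ.filter fun l => Sum.inl l ∈ I
        let I2 : Finset (Fin (m + 1)) := Finset.univ.filter fun b => Sum.inr b ∈ I
        have hIe : I1.disjSum I2 = I := by
          ext x
          rcases x with l | b
          · rw [Finset.inl_mem_disjSum, Finset.mem_filter]
            simp
          · rw [Finset.inr_mem_disjSum, Finset.mem_filter]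
            simp
        have hc : I1.card + I2.card = m + 1 := by
          rw [← Finset.card_disjSum, hIe, hI]
        rcases hpos t hD hE I1 I2 hc y hy with ⟨l, hl, h1⟩ | ⟨b, hb, h1⟩
        · refine ⟨Sum.inl l, (Finset.mem_filter.1 hl).2, ?_⟩
          rw [Pool.Agent.Q170.PK.divs_inl]
          exact h1
        · refine ⟨Sum.inr b, (Finset.mem_filter.1 hb).2, ?_⟩
          rw [Pool.Agent.Q170.PK.divs_inr]
          exact h1)
    by_cases hfin : NontrivialEquations D E G U
    · obtain ⟨Q2, hQ2⟩ := Pool.Agent.Q170.PK.famFin K hK κ r N q R e G hG d F U hU D E s hF hfin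
      refine ⟨max Q1 Q2, fun t ht => ?_⟩
      obtain ⟨p, hp, hpQ, hpD, hpE, hpR⟩ := ht
      refine ⟨?_, fun _ => ?_⟩
      · intro y hy P hP ρ hρ j0 T hT
        obtain ⟨S, c, hc, hcP⟩ := hρ
        have h1 := hQ1 t ⟨p, hp, (le_max_left _ _).trans_lt hpQ, hpD, hpE, hpR⟩ y hy (toE S) P
          (fun l => (onMs_iff _ (P l)).1 (hP l)) (relMod S P) (fun a ha => ha) j0 T hT
        have h2 := le_finrank S P c hc hcP
        have h3 : T.card + Module.finrank S.O (relMod S P) ≤ m := h1
        omega
      · intro y hy
        have hDne : eval t D ≠ 0 := by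
          intro h
          rw [h, padicValInt.zero] at hpR
          exact hpR (dvd_zero _)
        have h0 := hQ2 t ⟨p, hp, (le_max_right _ _).trans_lt hpQ, hpD, hpE, hDne⟩ y hy
        have h1 : {P : Fin q → (curve (eval₂ (evalAt K fun j => (t j : ℂ)) y A₄)
            (eval₂ (evalAt K fun j => (t j : ℂ)) y A₆)).Point | OnX (fun j => (t j : ℂ)) F y P} =
            Set.pi Set.univ fun l => {P | OnMultisection
              (fun h => eval₂ (evalAt K fun j => (t j : ℂ)) y (F l h)) P} := by
          ext P
          simp [OnX]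
        rw [h1]
        exact Set.Finite.pi fun l => finite_on _ _ _ (h0 l)
    · refine ⟨Q1, fun t ht => ⟨?_, fun h => absurd h hfin⟩⟩
      intro y hy P hP ρ hρ j0 T hT
      obtain ⟨S, c, hc, hcP⟩ := hρ
      have h1 := hQ1 t ht y hy (toE S) P
        (fun l => (onMs_iff _ (P l)).1 (hP l)) (relMod S P) (fun a ha => ha) j0 T hT
      have h2 := le_finrank S P c hc hcP
      have h3 : T.card + Module.finrank S.O (relMod S P) ≤ m := h1
      omega
  refine ⟨hmain, ?_, fun hD hDE ε hε => ?_⟩
  · intro t y hy hsm
    have h1 : ∀ l, ∃ P : (curve (eval₂ (evalAt K t) y A₄) (eval₂ (evalAt K t) y A₆)).Point,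
        OnMultisection (fun h => eval₂ (evalAt K t) y (F l h)) P := by
      intro l
      by_cases h0 : eval₂ (evalAt K t) y (F l 0) = 0
      · exact ⟨0, Or.inl ⟨rfl, h0⟩⟩
      · obtain ⟨X, hX⟩ := Pool.Agent.TH971.RF.exists_root hR.pos
          (fun h => eval₂ (evalAt K t) y (F l h)) h0
        obtain ⟨P, hP0, hPX⟩ := Pool.Agent.TH971.RF.exists_point (X := X) hsm
        refine ⟨P, Or.inr ⟨hP0, ?_⟩⟩
        have h2 : xCoord (a := eval₂ (evalAt K t) y A₄) (b := eval₂ (evalAt K t) y A₆) P = X := by
          rw [← hPX]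
          exact xCoord_eq P
        rw [h2]
        exact hX
    choose P hP using h1
    exact ⟨P, hP⟩
  · obtain ⟨Q, hQ⟩ := hmain
    obtain ⟨C, hC, hcount⟩ := Pool.Agent.Q170.PK.card_badR D E hD hDE R hR.pos Q ε hε
    refine ⟨C, hC, fun H hH => ?_⟩
    refine le_trans ?_ (hcount H hH)
    have h1 : {t : Fin r → ℤ | (∀ j, |t j| ≤ H) ∧
        ¬ (Pink m (fun j => (t j : ℂ)) G A₄ A₆ F ∧
          (NontrivialEquations D E G U → FiniteFibres (fun j => (t j : ℂ)) G A₄ A₆ F))} ⊆
        (((Pool.Agent.Q170.ZP.Count.box r H).filter fun t => ¬ ∃ p : ℕ, p.Prime ∧ Q < p ∧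
          (p : ℤ) ∣ eval t D ∧ ¬ (p : ℤ) ∣ eval t E ∧ ¬ R ∣ padicValInt p (eval t D) :
            Finset (Fin r → ℤ)) : Set (Fin r → ℤ)) := by
      rintro t ⟨ht, hbad⟩
      rw [Finset.mem_coe, Finset.mem_filter]
      exact ⟨Pool.Agent.Q170.ZP.Count.mem_box.2 ht, fun h => hbad (hQ t h)⟩
    have h2 := (Set.ncard_le_ncard h1 (Finset.finite_toSet _)).trans (Set.ncard_coe_finset _).le
    exact_mod_cast h2

end Pool.Agent.Results.MP_28d749_ag.AlmostAllMembers
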