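import Mathlib
import Pool.Agent.Q79.ZB.Coset2

/-!
MP_28d749_ag, Q1, constant abelian schemes: at least one `m`-th of the points of a fibre of a finite
morphism to a projective space of dimension `m` lie outside any given proper algebraic subgroup.
-/

set_option autoImplicit false

namespace Pool.Agent.Results.MP_28d749_ag.FibresAndSubgroups

open Pool.Agent.Q8.KS Pool.Agent.Q79.ZB
open Pool.Agent.Q8.ZA (AbelianVariety)

/-- Let `A` be an abelian variety over a number field `K` with absolute Galois group `G` over which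
all endomorphisms of `A` are defined, let `j : W → A` be a morphism from a projective variety of
dimension `m` (e.g. the projection to `A` of the closure `W` of a subvariety of `A × S`) whose image
is not contained in a translate of a proper abelian subvariety, and let `φ : W → ℙ^m` be a finite
morphism of degree `N`, `H = φ^* O(1)`. There are a proper closed subset `Z` of `W` and a constant
`C` with:

(1) For every point `t` of `ℙ^m` outside `φ(Z)` with `h(t) ≥ C` and every algebraic subgroup `H'` of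
`A` other than `A` at least `N / m` of the `N` points `w` of `φ⁻¹(t)`, counted with multiplicity,
satisfy `j(w) ∉ H'`.

(2) If `[K(w) : K(φ(w))] > (1 - 1/m) N`, `h(φ(w)) ≥ C` and `φ(w)` is not in `φ(Z)`, then `j(w)` lies
in no algebraic subgroup of `A` other than `A`, and `C ĥ_D(j(w)) ≥ (j^* D ⋅ H^(m-1)) h(φ(w))` for
every nef class `D` on `A`.

(3) For every `e` there are only finitely many points `w` with
`[K(w) : K(φ(w))] > (1 - 1/m) N`, `[K(φ(w)) : K] ≤ e` and `φ(w)` not in `φ(Z)` such that `j(w)` lies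
in an algebraic subgroup of `A` other than `A`. -/
theorem result {G : Type} [Group G] (W : Variety G) (E : Effective W) (A : AbelianVariety G)
    (j : GeneratingMap W A) (φ : Cover W) :
    ∃ Z ∈ E.closed, ∃ C : ℝ, 0 < C ∧
      (∀ t : φ.P, C ≤ φ.h t → (∀ y ∈ φ.fib t, y ∉ Z) → ∀ H ∈ A.Proper,
        AtLeast φ t (φ.N / ((W.dimPred : ℝ) + 1)) (fun w => j.pt w ∉ H)) ∧
      (∀ w : W.Pt, (1 - 1 / ((W.dimPred : ℝ) + 1)) * φ.N < φ.relDeg w → C ≤ φ.h (φ.φ w) →
        (∀ y ∈ φ.fib (φ.φ w), y ∉ Z) →
          (∀ D ∈ A.Nef, W.deg (W.cls φ.H) (W.cls (j.pic D)) * φ.h (φ.φ w) ≤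
            C * A.hat D (j.pt w)) ∧ ∀ H ∈ A.Proper, j.pt w ∉ H) ∧
      ∀ e : ℕ, {w : W.Pt | ((1 - 1 / ((W.dimPred : ℝ) + 1)) * φ.N < φ.relDeg w ∧
        (∀ y ∈ φ.fib (φ.φ w), y ∉ Z) ∧ ∃ H ∈ A.Proper, j.pt w ∈ H) ∧
          (MulAction.orbit G (φ.φ w)).ncard ≤ e}.Finite :=
  few_on_subgroup E j φ

end Pool.Agent.Results.MP_28d749_ag.FibresAndSubgroups
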