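import Pool.Agent.Q173.AS.Main

/-!
# Pink's conjecture for abelian schemes and a proportional gap in high dimension
-/

set_option autoImplicit false

open Set Pool.Agent.Q173.AS

namespace Pool.Agent.Results.MP_28d749_ag.PointsOfSmallRank

universe u v

theorem result {C : Type u} (T : Theory.{u, v} C) (hT : T.IsKnown) :
    (∀ θ : ℝ, 0 ≤ θ → θ < 1 →
      ((∀ (S : C) (V : Set (T.pts S)), T.Var V → 1 ≤ T.defect V →
          ¬ T.DensePts V (θ * T.defect V)) ↔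
        ∃ (D : ℕ) (f : ℕ → ℕ), ∀ (S : C) (V : Set (T.pts S)), T.Var V →
          D ≤ T.defect V → f (T.defect V) ≤ T.dim V → ¬ T.DensePts V (θ * T.defect V))) ∧
    (T.Pink ↔ ∀ ε : ℝ, 0 < ε → ∃ (D : ℕ) (f : ℕ → ℕ), ∀ (S : C) (V : Set (T.pts S)), T.Var V →
      D ≤ T.defect V → f (T.defect V) ≤ T.dim V → ¬ T.DensePts V ((1 - ε) * T.defect V)) := by
  have key : ∀ θ : ℝ, 0 ≤ θ → θ < 1 →
      ((∀ (S : C) (V : Set (T.pts S)), T.Var V → 1 ≤ T.defect V →
          ¬ T.DensePts V (θ * T.defect V)) ↔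
        ∃ (D : ℕ) (f : ℕ → ℕ), ∀ (S : C) (V : Set (T.pts S)), T.Var V →
          D ≤ T.defect V → f (T.defect V) ≤ T.dim V → ¬ T.DensePts V (θ * T.defect V)) := by
    intro θ hθ0 hθ1
    constructor
    · intro h
      exact ⟨1, fun _ => 0, fun S V hV hd _ => h S V hV hd⟩
    · rintro ⟨D, f, h⟩ S V hV hd hD
      obtain ⟨S', V', hV', h1, h2, h3⟩ := hT.amplifyPts hV hd hθ0 hD hθ1 D f
      exact h S' V' hV' h1 h2 h3
  refine ⟨key, Theory.pink_iff.trans ⟨fun h ε hε => ?_, fun h θ hθ0 hθ1 => ?_⟩⟩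
  · by_cases h1 : ε ≤ 1
    · exact (key (1 - ε) (by linarith) (by linarith)).1 (h (1 - ε) (by linarith) (by linarith))
    · refine ⟨1, fun _ => 0, fun S V hV hd _ hD => ?_⟩
      obtain ⟨x, hx⟩ := hV.2.1
      obtain ⟨y, hy⟩ := closure_nonempty_iff.1 ⟨x, hD hx⟩
      have h2 : (T.rank y : ℝ) ≤ (1 - ε) * T.defect V := hy.2
      have h3 : (0 : ℝ) ≤ T.rank y := Nat.cast_nonneg _
      have h4 : (1 : ℝ) ≤ T.defect V := by exact_mod_cast hd
      nlinarith
  · have h1 := h (1 - θ) (by linarith)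
    rw [sub_sub_cancel] at h1
    exact (key θ hθ0 hθ1).2 h1

end Pool.Agent.Results.MP_28d749_ag.PointsOfSmallRank
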